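import Pool.Agent.Helper8.LCH.SPH

/-!
# RKB: subgroups of rank one whose common kernel is good
-/

set_option autoImplicit false

namespace LCH8

open LCH

universe u v

section basics

variable {K : Type u} [Field K] {G : Type v} [Group G] {s : Sit G}

theorem tr_apply {g : G} (hg : g ∈ s.M) (v : s.V K) (x : G) :
    (s.tr K g v).1 x = v.1 (g⁻¹ * x) := by
  unfold Sit.tr
  rw [dif_pos hg]
  rfl

theorem tr_one : s.tr K (1 : G) = 1 := by
  refine LinearMap.ext fun v => Subtype.ext (funext fun x => ?_)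
  rw [tr_apply s.M.one_mem, inv_one, one_mul]
  rfl

theorem tr_mul {g h : G} (hg : g ∈ s.M) (hh : h ∈ s.M) :
    s.tr K g * s.tr K h = s.tr K (g * h) := by
  refine LinearMap.ext fun v => Subtype.ext (funext fun x => ?_)
  rw [tr_apply (s.M.mul_mem hg hh)]
  change (s.tr K g (s.tr K h v)).1 x = _
  rw [tr_apply hg, tr_apply hh, mul_inv_rev, mul_assoc]

theorem VCw_tr {g : G} (hg : g ∈ s.M) : VCw s (s.tr K g) (fun x => g * x) := by
  refine ⟨fun x hx => s.M.mul_mem hg hx, ?_, ?_, ?_⟩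
  · intro y hy
    exact ⟨g⁻¹ * y, s.M.mul_mem (s.M.inv_mem hg) hy, mul_inv_cancel_left g y⟩
  · intro x _ y _ h
    exact (s.lt_mul g).2 h
  · intro v x hx
    refine ⟨?_, ?_⟩
    · rw [tr_apply hg, inv_mul_cancel_left]
      exact hx.1
    · intro y hy
      rw [tr_apply hg] at hy
      rcases hx.2 _ hy with h | h
      · left
        rw [← h]
        exact (mul_inv_cancel_left g y).symm
      · right
        have := (s.lt_mul g).2 h
        rwa [mul_inv_cancel_left] at this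

theorem VCw_comp {T T' : Module.End K (s.V K)} {φ φ' : G → G} (h : VCw s T φ)
    (h' : VCw s T' φ') : VCw s (T * T') (fun x => φ (φ' x)) := by
  refine ⟨fun x hx => h.1 _ (h'.1 x hx), ?_, ?_, ?_⟩
  · intro y hy
    obtain ⟨x, hx, hxy⟩ := h.2.1 y hy
    obtain ⟨z, hz, hzx⟩ := h'.2.1 x hx
    refine ⟨z, hz, ?_⟩
    change φ (φ' z) = y
    rw [hzx, hxy]
  · intro x hx y hy hxy
    exact h.2.2.1 _ (h'.1 x hx) _ (h'.1 y hy) (h'.2.2.1 x hx y hy hxy)
  · intro v x hx
    exact h.2.2.2 _ _ (h'.2.2.2 v x hx)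

theorem lead_unique {v : G → K} {x y : G} (hx : Lead s v x) (hy : Lead s v y) : x = y := by
  rcases hx.2 y hy.1 with h | h
  · exact h.symm
  · rcases hy.2 x hx.1 with h' | h'
    · exact h'
    · exact absurd h' (fun h' => ltn h h')

open Classical in
/-- restriction as a linear map -/
noncomputable def rstL (K : Type u) [Field K] (s : Sit G) (C : Set G) : Module.End K (s.V K) where
  toFun v := rst C v
  map_add' v w := by
    refine Subtype.ext (funext fun x => ?_)
    by_cases h : x ∈ C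
    · rw [rst_pos h]
      change v.1 x + w.1 x = (rst C v).1 x + (rst C w).1 x
      rw [rst_pos h, rst_pos h]
    · rw [rst_neg h]
      change 0 = (rst C v).1 x + (rst C w).1 x
      rw [rst_neg h, rst_neg h, add_zero]
  map_smul' c v := by
    refine Subtype.ext (funext fun x => ?_)
    by_cases h : x ∈ C
    · rw [rst_pos h]
      change c * v.1 x = c * (rst C v).1 x
      rw [rst_pos h]
    · rw [rst_neg h]
      change 0 = c * (rst C v).1 x
      rw [rst_neg h, mul_zero]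

theorem commute_inverse {R : Type*} [Ring R] {a b : R} (h : Commute a b) :
    Commute (Ring.inverse a) b := by
  by_cases ha : IsUnit a
  · obtain ⟨u, rfl⟩ := ha
    rw [Ring.inverse_unit]
    exact h.units_inv_left
  · rw [Ring.inverse_non_unit _ ha]
    exact Commute.zero_left b

/-- expressions with support in `N` commute with the restriction to unions of cosets -/
theorem ev_rst {N : Subgroup G} (hN : N ≤ s.M) {C : Set G}
    (hC : ∀ n ∈ N, ∀ x, n * x ∈ C ↔ x ∈ C) (e : Ex K G) (he : ∀ g ∈ e.supp, g ∈ N) :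
    Commute (e.ev s) (rstL K s C) := by
  induction e with
  | mono c g =>
    have hg : g ∈ N := he g rfl
    have hgM := hN hg
    change (c • s.tr K g) * rstL K s C = rstL K s C * (c • s.tr K g)
    refine LinearMap.ext fun v => Subtype.ext (funext fun x => ?_)
    have e1 : (((c • s.tr K g) * rstL K s C) v).1 x = c * (rst C v).1 (g⁻¹ * x) := by
      change c * (s.tr K g (rst C v)).1 x = _
      rw [tr_apply hgM]
    have e2 : ((rstL K s C * (c • s.tr K g)) v).1 x = (rst C ((c • s.tr K g) v)).1 x := rfl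
    have e3 : ((c • s.tr K g) v).1 x = c * v.1 (g⁻¹ * x) := by
      change c * (s.tr K g v).1 x = _
      rw [tr_apply hgM]
    rw [e1, e2]
    by_cases h : x ∈ C
    · rw [rst_pos h, rst_pos ((hC _ (N.inv_mem hg) x).2 h), e3]
    · rw [rst_neg h, rst_neg (fun h' => h ((hC _ (N.inv_mem hg) x).1 h')), mul_zero]
  | add a b iha ihb =>
    exact (iha (fun g hg => he g (Or.inl hg))).add_left (ihb (fun g hg => he g (Or.inr hg)))
  | mul a b iha ihb =>
    exact (iha (fun g hg => he g (Or.inl hg))).mul_left (ihb (fun g hg => he g (Or.inr hg)))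
  | inv a iha => exact commute_inverse (R := Module.End K (s.V K)) (iha he)

/-- the function `φ` of an expression with support in `N` respects the cosets of `N` -/
theorem phi_coset {N : Subgroup G} (hN : N ≤ s.M) (e : Ex K G) (he : ∀ g ∈ e.supp, g ∈ N)
    {φ : G → G} (hφ : VCw s (e.ev s) φ) {x : G} (hx : x ∈ s.M) : φ x * x⁻¹ ∈ N := by
  set C : Set G := {y | y * x⁻¹ ∈ N} with hCdef
  have hC : ∀ n ∈ N, ∀ y, n * y ∈ C ↔ y ∈ C := by
    intro n hn y
    change n * y * x⁻¹ ∈ N ↔ y * x⁻¹ ∈ N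
    rw [mul_assoc]
    exact N.mul_mem_cancel_left hn
  have h1 := ev_rst hN hC e he
  set d : s.V K := dlt x hx 1 with hd
  have h2 : rst C d = d := by
    refine Subtype.ext (funext fun y => ?_)
    by_cases h : y ∈ C
    · rw [rst_pos h]
    · rw [rst_neg h, hd, dlt_ne hx]
      intro hyx
      apply h
      change y * x⁻¹ ∈ N
      rw [hyx, mul_inv_cancel]
      exact N.one_mem
  have h3 : rst C (e.ev s d) = e.ev s d := by
    have h4 : e.ev s (rst C d) = rst C (e.ev s d) := LinearMap.congr_fun h1 d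
    rw [← h4, h2]
  have h5 := (hφ.2.2.2 d x (lead_dlt hx one_ne_zero)).1
  by_contra hcon
  apply h5
  rw [← h3]
  exact rst_neg hcon

theorem inverse_conj {R : Type*} [Ring R] {p q a : R} (hpq : p * q = 1) (hqp : q * p = 1) :
    Ring.inverse (p * a * q) = p * Ring.inverse a * q := by
  by_cases ha : IsUnit a
  · obtain ⟨u, rfl⟩ := ha
    have e : p * (u : R) * q = ((⟨p * u * q, p * ((u⁻¹ : Rˣ) : R) * q, by
        rw [mul_assoc (p * (u : R)) q, ← mul_assoc q, ← mul_assoc q, hqp, one_mul,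
          ← mul_assoc, mul_assoc p, Units.mul_inv, mul_one, hpq], by
        rw [mul_assoc (p * ((u⁻¹ : Rˣ) : R)) q, ← mul_assoc q, ← mul_assoc q, hqp, one_mul,
          ← mul_assoc, mul_assoc p, Units.inv_mul, mul_one, hpq]⟩ : Rˣ) : R) := rfl
    rw [e, Ring.inverse_unit, Ring.inverse_unit]
    rfl
  · have hb : ¬ IsUnit (p * a * q) := by
      intro h
      apply ha
      have e : a = q * (p * a * q) * p := by
        rw [← mul_assoc, ← mul_assoc, hqp, one_mul, mul_assoc, hqp, mul_one]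
      rw [e]
      have hp : IsUnit p := ⟨⟨p, q, hpq, hqp⟩, rfl⟩
      have hq : IsUnit q := ⟨⟨q, p, hqp, hpq⟩, rfl⟩
      exact (hq.mul h).mul hp
    rw [Ring.inverse_non_unit _ ha, Ring.inverse_non_unit _ hb, mul_zero, zero_mul]

theorem tr_inv_right {t : G} (ht : t ∈ s.M) : s.tr K t * s.tr K t⁻¹ = 1 := by
  rw [tr_mul ht (s.M.inv_mem ht), mul_inv_cancel, tr_one]

theorem tr_inv_left {t : G} (ht : t ∈ s.M) : s.tr K t⁻¹ * s.tr K t = 1 := by
  rw [tr_mul (s.M.inv_mem ht) ht, inv_mul_cancel, tr_one]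

theorem ev_conj {t : G} (ht : t ∈ s.M) (e : Ex K G) (he : ∀ g ∈ e.supp, g ∈ s.M) :
    (e.conj t).ev s = s.tr K t * e.ev s * s.tr K t⁻¹ := by
  have h1 := tr_inv_right (K := K) ht
  have h2 := tr_inv_left (K := K) ht
  induction e with
  | mono c g =>
    have hg : g ∈ s.M := he g rfl
    change c • s.tr K (t * g * t⁻¹) = s.tr K t * (c • s.tr K g) * s.tr K t⁻¹
    rw [mul_smul_comm, smul_mul_assoc, tr_mul ht hg, tr_mul (s.M.mul_mem ht hg) (s.M.inv_mem ht)]
  | add a b iha ihb =>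
    change (a.conj t).ev s + (b.conj t).ev s = s.tr K t * (a.ev s + b.ev s) * s.tr K t⁻¹
    rw [iha (fun g hg => he g (Or.inl hg)), ihb (fun g hg => he g (Or.inr hg)), mul_add, add_mul]
  | mul a b iha ihb =>
    change (a.conj t).ev s * (b.conj t).ev s = s.tr K t * (a.ev s * b.ev s) * s.tr K t⁻¹
    rw [iha (fun g hg => he g (Or.inl hg)), ihb (fun g hg => he g (Or.inr hg))]
    have e1 : s.tr K t * a.ev s * s.tr K t⁻¹ * (s.tr K t * b.ev s * s.tr K t⁻¹) =
        s.tr K t * a.ev s * (s.tr K t⁻¹ * s.tr K t) * b.ev s * s.tr K t⁻¹ := by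
      simp only [mul_assoc]
    rw [e1, h2, mul_one]
    simp only [mul_assoc]
  | inv a iha =>
    change Ring.inverse ((a.conj t).ev s) = s.tr K t * Ring.inverse (a.ev s) * s.tr K t⁻¹
    rw [iha he]
    exact inverse_conj (R := Module.End K (s.V K)) h1 h2

omit [Field K] in
theorem supp_conj (t : G) (e : Ex K G) : ∀ g ∈ (e.conj t).supp, ∃ h ∈ e.supp, g = t * h * t⁻¹ := by
  induction e with
  | mono c g =>
    intro x hx
    exact ⟨g, rfl, hx⟩
  | add a b iha ihb =>
    rintro x (hx | hx)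
    · obtain ⟨h, hh, e⟩ := iha x hx
      exact ⟨h, Or.inl hh, e⟩
    · obtain ⟨h, hh, e⟩ := ihb x hx
      exact ⟨h, Or.inr hh, e⟩
  | mul a b iha ihb =>
    rintro x (hx | hx)
    · obtain ⟨h, hh, e⟩ := iha x hx
      exact ⟨h, Or.inl hh, e⟩
    · obtain ⟨h, hh, e⟩ := ihb x hx
      exact ⟨h, Or.inr hh, e⟩
  | inv a iha =>
    intro x hx
    exact iha x hx

theorem one_ne_zero_End : (1 : Module.End K (s.V K)) ≠ 0 := by
  intro h
  have h1 : (dlt (s := s) (1 : G) s.M.one_mem (1 : K)) = 0 := by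
    have h2 : (1 : Module.End K (s.V K)) (dlt (s := s) (1 : G) s.M.one_mem (1 : K)) = 0 := by
      rw [h]; rfl
    exact h2
  have h3 := dlt_self (s := s) s.M.one_mem (1 : K)
  rw [h1] at h3
  exact one_ne_zero h3.symm

end basics

section

variable {K : Type u} [Field K] {G : Type v} [Group G]

/-! ## The kernel -/

theorem mem_Ker {L : Subgroup G} {g : G} :
    g ∈ Ker L ↔ ∃ hg : g ∈ L, ∀ φ : L →* Multiplicative ℤ, φ ⟨g, hg⟩ = 1 := by
  unfold Ker
  rw [Subgroup.mem_map]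
  constructor
  · rintro ⟨x, hx, rfl⟩
    refine ⟨x.2, fun φ => ?_⟩
    rw [Subgroup.mem_iInf] at hx
    exact hx φ
  · rintro ⟨hg, h⟩
    refine ⟨⟨g, hg⟩, ?_, rfl⟩
    rw [Subgroup.mem_iInf]
    exact h

theorem Ker_le (L : Subgroup G) : Ker L ≤ L := fun _ hg => (mem_Ker.1 hg).1

theorem Ker_conj {L : Subgroup G} {t g : G} (ht : t ∈ L) (hg : g ∈ Ker L) :
    t * g * t⁻¹ ∈ Ker L := by
  obtain ⟨hgL, h⟩ := mem_Ker.1 hg
  refine mem_Ker.2 ⟨L.mul_mem (L.mul_mem ht hgL) (L.inv_mem ht), fun φ => ?_⟩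
  have e : (⟨t * g * t⁻¹, L.mul_mem (L.mul_mem ht hgL) (L.inv_mem ht)⟩ : L) =
      ⟨t, ht⟩ * ⟨g, hgL⟩ * ⟨t, ht⟩⁻¹ := rfl
  rw [e, map_mul, map_mul, map_inv, h φ, mul_one, mul_inv_cancel]

theorem mz_pow {x : Multiplicative ℤ} {n : ℤ} (hn : n ≠ 0) (h : x ^ n = 1) : x = 1 := by
  have h1 : n • Multiplicative.toAdd x = 0 := by
    have := congrArg Multiplicative.toAdd h
    rwa [toAdd_zpow, toAdd_one] at this
  rw [smul_eq_mul] at h1
  rcases mul_eq_zero.1 h1 with h2 | h2
  · exact absurd h2 hn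
  · exact Multiplicative.toAdd.injective h2

/-- in rank one there is an element that generates modulo the kernel -/
theorem exists_tau (hLI : LI G) {L : Subgroup G} (hL : L.FG) (hne : L ≠ ⊥) (hrk : Rk1 L) :
    ∃ τ ∈ L, (∀ g ∈ L, ∃ i : ℤ, g * τ ^ (-i) ∈ Ker L) ∧ ∀ i : ℤ, τ ^ i ∈ Ker L → i = 0 := by
  obtain ⟨h, hh⟩ := hLI L hL hne
  have hker : ∀ x : L, h x = 1 → (x : G) ∈ Ker L := by
    intro x hx
    refine mem_Ker.2 ⟨x.2, fun φ => ?_⟩
    obtain ⟨m, n, hmn, e⟩ := hrk h φ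
    have hn : n ≠ 0 := by
      rintro rfl
      rcases hmn with hm | hm
      · apply hh
        ext y
        have := DFunLike.congr_fun e y
        rw [zpow_zero, mul_one, MonoidHom.zpow_apply, MonoidHom.one_apply] at this
        rw [mz_pow hm this]
        rfl
      · exact hm rfl
    have := DFunLike.congr_fun e x
    rw [MonoidHom.mul_apply, MonoidHom.zpow_apply, MonoidHom.zpow_apply, MonoidHom.one_apply, hx,
      one_zpow, one_mul] at this
    exact mz_pow hn this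
  -- the image is cyclic
  obtain ⟨k, hk⟩ := (inferInstance : IsCyclic h.range).exists_generator
  obtain ⟨τ, hτ⟩ := k.2
  refine ⟨τ, τ.2, ?_, ?_⟩
  · intro g hg
    obtain ⟨i, hi⟩ := hk ⟨h ⟨g, hg⟩, ⟨⟨g, hg⟩, rfl⟩⟩
    refine ⟨i, ?_⟩
    have e1 : (k : Multiplicative ℤ) ^ i = h ⟨g, hg⟩ := congrArg Subtype.val hi
    have := hker (⟨g, hg⟩ * τ ^ (-i)) (by
      rw [map_mul, map_zpow, hτ, zpow_neg, e1, mul_inv_cancel])
    exact this
  · intro i hi
    by_contra hi0
    apply hh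
    obtain ⟨hiL, h1⟩ := mem_Ker.1 hi
    have h2 := h1 h
    have e2 : (⟨(τ : G) ^ i, hiL⟩ : L) = τ ^ i := rfl
    rw [e2, map_zpow] at h2
    have h3 := mz_pow hi0 h2
    ext y
    obtain ⟨j, hj⟩ := hk ⟨h y, ⟨y, rfl⟩⟩
    have e1 : (k : Multiplicative ℤ) ^ j = h y := congrArg Subtype.val hj
    rw [← e1, ← hτ, h3, one_zpow]
    rfl

/-! ## The subring of expressions with support in a subgroup -/

/-- the values of the expressions with support in `N` -/
noncomputable def DN (K : Type u) [Field K] {G : Type v} [Group G] (L N : Subgroup G) :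
    Subring (AlgJ K L) where
  carrier := {x | ∃ e : Ex K G, (∀ g ∈ e.supp, g ∈ N) ∧ x = e.evJ L}
  mul_mem' := by
    rintro _ _ ⟨a, ha, rfl⟩ ⟨b, hb, rfl⟩
    refine ⟨.mul a b, ?_, rfl⟩
    rintro g (hg | hg)
    · exact ha g hg
    · exact hb g hg
  one_mem' := by
    refine ⟨.mono 1 1, ?_, ?_⟩
    · rintro g rfl
      exact N.one_mem
    · refine funext fun s => ?_
      change 1 = (1 : K) • s.1.tr K 1
      rw [tr_one, one_smul]
  add_mem' := by
    rintro _ _ ⟨a, ha, rfl⟩ ⟨b, hb, rfl⟩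
    refine ⟨.add a b, ?_, rfl⟩
    rintro g (hg | hg)
    · exact ha g hg
    · exact hb g hg
  zero_mem' := by
    refine ⟨.mono 0 1, ?_, ?_⟩
    · rintro g rfl
      exact N.one_mem
    · refine funext fun s => ?_
      change 0 = (0 : K) • s.1.tr K 1
      rw [zero_smul]
  neg_mem' := by
    rintro _ ⟨a, ha, rfl⟩
    refine ⟨.mul (.mono (-1) 1) a, ?_, ?_⟩
    · rintro g (hg | hg)
      · rw [show g = 1 from hg]
        exact N.one_mem
      · exact ha g hg
    · refine funext fun s => ?_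
      change - a.ev s.1 = ((-1 : K) • s.1.tr K 1) * a.ev s.1
      rw [tr_one, smul_mul_assoc, one_mul]
      have := neg_smul (1 : K) (a.ev s.1)
      rw [one_smul] at this
      exact this.symm

theorem Good_alt {L N : Subgroup G} (hNL : N ≤ L) (hG : Good K N) {e : Ex K G}
    (he : ∀ g ∈ e.supp, g ∈ N) : e.evJ L = 0 ∨ ∀ s : {s : Sit G // L ≤ s.M}, VC s.1 (e.ev s.1) := by
  rcases hG e he with h | h
  · left
    refine funext fun s => ?_
    exact h s.1 (fun g hg => s.2 (hNL (he g hg)))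
  · right
    intro s
    exact h s.1 (fun g hg => s.2 (hNL (he g hg)))

theorem DN_div {L N : Subgroup G} (hNL : N ≤ L) (hG : Good K N) :
    ∀ x ∈ DN K L N, x ≠ 0 → ∃ y ∈ DN K L N, x * y = 1 ∧ y * x = 1 := by
  rintro _ ⟨e, he, rfl⟩ hx
  rcases Good_alt hNL hG he with h | h
  · exact absurd h hx
  · refine ⟨(Ex.inv e).evJ L, ⟨.inv e, he, rfl⟩, ?_, ?_⟩
    · refine funext fun s => ?_
      change e.ev s.1 * Ring.inverse (e.ev s.1) = 1
      exact Ring.mul_inverse_cancel _ (st_SPH K G s.1 _ (h s))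
    · refine funext fun s => ?_
      change Ring.inverse (e.ev s.1) * e.ev s.1 = 1
      exact Ring.inverse_mul_cancel _ (st_SPH K G s.1 _ (h s))

/-- the unit given by an element of `L` -/
noncomputable def trU (K : Type u) [Field K] {G : Type v} [Group G] (L : Subgroup G) (t : G)
    (ht : t ∈ L) : (AlgJ K L)ˣ where
  val := fun s => s.1.tr K t
  inv := fun s => s.1.tr K t⁻¹
  val_inv := funext fun s => tr_inv_right (s.2 ht)
  inv_val := funext fun s => tr_inv_left (s.2 ht)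

theorem DN_conj {L N : Subgroup G} (hNL : N ≤ L) {t : G} (ht : t ∈ L)
    (hN : ∀ n ∈ N, t * n * t⁻¹ ∈ N) : ∀ x ∈ DN K L N,
    (trU K L t ht : AlgJ K L) * x * (((trU K L t ht)⁻¹ : (AlgJ K L)ˣ) : AlgJ K L) ∈ DN K L N := by
  rintro _ ⟨e, he, rfl⟩
  refine ⟨e.conj t, ?_, ?_⟩
  · intro g hg
    obtain ⟨h, hh, rfl⟩ := supp_conj t e g hg
    exact hN h (he h hh)
  · refine funext fun s => ?_
    exact (ev_conj (s.2 ht) e (fun g hg => s.2 (hNL (he g hg)))).symm

theorem DN_conj' {L N : Subgroup G} (hNL : N ≤ L) {t : G} (ht : t ∈ L)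
    (hN : ∀ n ∈ N, t⁻¹ * n * t ∈ N) : ∀ x ∈ DN K L N,
    (((trU K L t ht)⁻¹ : (AlgJ K L)ˣ) : AlgJ K L) * x * (trU K L t ht : AlgJ K L) ∈ DN K L N := by
  rintro _ ⟨e, he, rfl⟩
  refine ⟨e.conj t⁻¹, ?_, ?_⟩
  · intro g hg
    obtain ⟨h, hh, rfl⟩ := supp_conj t⁻¹ e g hg
    rw [inv_inv]
    exact hN h (he h hh)
  · refine funext fun s => ?_
    have := ev_conj (s := s.1) (L.inv_mem ht |> fun h => s.2 h) e
      (fun g hg => s.2 (hNL (he g hg)))
    rw [inv_inv] at this
    exact this.symm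

theorem trU_pow {L : Subgroup G} {t : G} (ht : t ∈ L) (n : ℕ) (s : {s : Sit G // L ≤ s.M}) :
    ((trU K L t ht : AlgJ K L) ^ n) s = s.1.tr K (t ^ n) := by
  induction n with
  | zero =>
    rw [pow_zero, pow_zero, tr_one]
    rfl
  | succ n ih =>
    rw [pow_succ, pow_succ]
    change ((trU K L t ht : AlgJ K L) ^ n) s * s.1.tr K t = _
    rw [ih, tr_mul (s.2 (L.pow_mem ht n)) (s.2 ht)]

theorem trU_inv_pow {L : Subgroup G} {t : G} (ht : t ∈ L) (n : ℕ) (s : {s : Sit G // L ≤ s.M}) :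
    ((((trU K L t ht)⁻¹ : (AlgJ K L)ˣ) : AlgJ K L) ^ n) s = s.1.tr K ((t⁻¹) ^ n) := by
  induction n with
  | zero =>
    rw [pow_zero, pow_zero, tr_one]
    rfl
  | succ n ih =>
    rw [pow_succ, pow_succ]
    change ((((trU K L t ht)⁻¹ : (AlgJ K L)ˣ) : AlgJ K L) ^ n) s * s.1.tr K t⁻¹ = _
    rw [ih, tr_mul (s.2 (L.pow_mem (L.inv_mem ht) n)) (s.2 (L.inv_mem ht))]

/-- nonzero skew polynomials are compatible with leading positions -/
theorem poly_VC (hMVC : ST_MVC.{u, v}) {L N : Subgroup G} (hNL : N ≤ L) (hG : Good K N) {t : G}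
    (ht : t ∈ L) (htN : ∀ i : ℤ, t ^ i ∈ N → i = 0)
    (n : ℕ) (d : Fin n → AlgJ K L) (hd : ∀ i, d i ∈ DN K L N) (hne : ∃ i, d i ≠ 0)
    (s : {s : Sit G // L ≤ s.M}) :
    VC s.1 ((∑ i : Fin n, d i * (trU K L t ht : AlgJ K L) ^ (i : ℕ)) s) := by
  classical
  have hch : ∀ i : Fin n, ∃ e : Ex K G, (∀ g ∈ e.supp, g ∈ N) ∧ d i = e.evJ L := hd
  choose e he hde using hch
  set I : Finset (Fin n) := Finset.univ.filter (fun i => d i ≠ 0) with hI
  obtain ⟨i0, hi0⟩ := hne
  have hcard : 0 < I.card := Finset.card_pos.2 ⟨i0, by rw [hI, Finset.mem_filter]; exact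
    ⟨Finset.mem_univ _, hi0⟩⟩
  obtain ⟨m, hm⟩ : ∃ m, I.card = m + 1 := ⟨I.card - 1, by omega⟩
  let E : Fin (m + 1) ≃ I := (I.equivFinOfCardEq hm).symm
  have hvc : ∀ i : Fin n, d i ≠ 0 → ∃ φ : G → G, VCw s.1 ((e i).ev s.1) φ := by
    intro i hi
    rcases Good_alt hNL hG (he i) with h | h
    · rw [hde i] at hi
      exact absurd h hi
    · exact h s
  have hφ : ∀ j : Fin (m + 1), ∃ φ : G → G, VCw s.1 ((e (E j)).ev s.1) φ := by
    intro j
    apply hvc
    exact (Finset.mem_filter.1 (show (E j : Fin n) ∈ Finset.univ.filter (fun i => d i ≠ 0) from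
      (E j).2)).2
  choose φ hφ using hφ
  have hsum : (∑ i : Fin n, d i * (trU K L t ht : AlgJ K L) ^ (i : ℕ)) s =
      ∑ j : Fin (m + 1), (e (E j)).ev s.1 * s.1.tr K (t ^ ((E j : Fin n) : ℕ)) := by
    rw [Finset.sum_apply]
    have h1 : ∀ i : Fin n, (d i * (trU K L t ht : AlgJ K L) ^ (i : ℕ)) s =
        (e i).ev s.1 * s.1.tr K (t ^ (i : ℕ)) := by
      intro i
      change d i s * ((trU K L t ht : AlgJ K L) ^ (i : ℕ)) s = _
      rw [trU_pow, hde i]
      rfl
    rw [Finset.sum_congr rfl (fun i _ => h1 i)]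
    have h2 : ∑ i : Fin n, (e i).ev s.1 * s.1.tr K (t ^ (i : ℕ)) =
        ∑ i ∈ I, (e i).ev s.1 * s.1.tr K (t ^ (i : ℕ)) := by
      rw [hI, Finset.sum_filter]
      refine Finset.sum_congr rfl fun i _ => ?_
      by_cases hi : d i ≠ 0
      · rw [if_pos hi]
      · rw [if_neg hi]
        push Not at hi
        have h3 : (e i).ev s.1 = 0 := by
          have h4 := congrFun (hde i) s
          rw [hi] at h4
          exact h4.symm
        rw [h3, zero_mul]
    rw [h2, ← Finset.sum_coe_sort I, ← E.sum_comp]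
  rw [hsum]
  refine hMVC K G s.1 m _ (fun j x => φ j (t ^ ((E j : Fin n) : ℕ) * x)) ?_ ?_
  · intro j
    exact VCw_comp (hφ j) (VCw_tr (s.2 (L.pow_mem ht _)))
  · intro j j' hjj x hx heq
    have hNM : N ≤ s.1.M := fun g hg => s.2 (hNL hg)
    have h1 := phi_coset hNM (e (E j)) (he _) (hφ j)
      (s.1.M.mul_mem (s.2 (L.pow_mem ht ((E j : Fin n) : ℕ))) hx)
    have h2 := phi_coset hNM (e (E j')) (he _) (hφ j')
      (s.1.M.mul_mem (s.2 (L.pow_mem ht ((E j' : Fin n) : ℕ))) hx)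
    have heq' : φ j (t ^ ((E j : Fin n) : ℕ) * x) = φ j' (t ^ ((E j' : Fin n) : ℕ) * x) := heq
    rw [heq'] at h1
    set y := φ j' (t ^ ((E j' : Fin n) : ℕ) * x) with hy
    have h3 := N.mul_mem (N.inv_mem h1) h2
    have e1 : (y * (t ^ ((E j : Fin n) : ℕ) * x)⁻¹)⁻¹ * (y * (t ^ ((E j' : Fin n) : ℕ) * x)⁻¹) =
        t ^ ((((E j : Fin n) : ℕ) : ℤ) - (((E j' : Fin n) : ℕ) : ℤ)) := by
      rw [zpow_sub, zpow_natCast, zpow_natCast]
      group
    rw [e1] at h3
    have h4 := htN _ h3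
    have h5 : ((E j : Fin n) : ℕ) = ((E j' : Fin n) : ℕ) := by omega
    have h6 : (E j : Fin n) = (E j' : Fin n) := Fin.ext h5
    exact hjj (E.injective (Subtype.ext h6))

theorem st_RKB (hFRE : ST_FRE.{u, v}) (hSKL : ST_SKL.{max u v}) (hMVC : ST_MVC.{u, v}) :
    ST_RKB.{u, v} := by
  classical
  intro K _ G _ hLI L hL hne hrk hG e he
  obtain ⟨t, ht, hgen, hzero⟩ := exists_tau hLI hL hne hrk
  by_cases hemp : Nonempty {s : Sit G // L ≤ s.M}
  swap
  · left
    intro s hs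
    exact absurd ⟨⟨s, hs⟩⟩ hemp
  obtain ⟨s0⟩ := hemp
  have hnt : Nontrivial (AlgJ K L) := by
    refine ⟨⟨1, 0, fun h => ?_⟩⟩
    exact one_ne_zero_End (K := K) (s := s0.1) (congrFun h s0)
  have hpoly := fun n d hd hne s => poly_VC (K := K) hMVC (Ker_le L) hG ht hzero n d hd hne s
  obtain ⟨S, hS, hSu, hSO⟩ := hSKL (AlgJ K L) (DN K L (Ker L)) (trU K L t ht)
    (DN_div (Ker_le L) hG)
    (DN_conj (Ker_le L) ht (fun n hn => Ker_conj ht hn))
    (DN_conj' (Ker_le L) ht (fun n hn => by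
      have := Ker_conj (L.inv_mem ht) hn
      rwa [inv_inv] at this))
    (by
      intro n d hd hne
      rw [Pi.isUnit_iff]
      intro s
      exact st_SPH K G s.1 _ (hpoly n d hd hne s))
  refine hFRE K G L S ?_ hSO ?_ e he
  · intro x hx hx0 s
    obtain ⟨n, d, k, hd, rfl⟩ := (hS x).1 hx
    have hne : ∃ i, d i ≠ 0 := by
      by_contra hcon
      push Not at hcon
      apply hx0
      rw [Finset.sum_eq_zero (fun i _ => by rw [hcon i, zero_mul]), zero_mul]
    obtain ⟨φ, hφ⟩ := hpoly n d hd hne s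
    refine ⟨fun x => φ ((t⁻¹) ^ k * x), ?_⟩
    change VCw s.1 ((∑ i : Fin n, d i * (trU K L t ht : AlgJ K L) ^ (i : ℕ)) s *
      ((((trU K L t ht)⁻¹ : (AlgJ K L)ˣ) : AlgJ K L) ^ k) s) _
    rw [trU_inv_pow]
    exact VCw_comp hφ (VCw_tr (s.2 (L.pow_mem (L.inv_mem ht) k)))
  · intro c g hg
    -- `S` contains the values of expressions over the kernel, and `t`, `t⁻¹`
    have hDS : ∀ x ∈ DN K L (Ker L), x ∈ S := by
      intro x hx
      refine (hS x).2 ⟨1, fun _ => x, 0, fun _ => hx, ?_⟩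
      simp
    have htS : (trU K L t ht : AlgJ K L) ∈ S := by
      refine (hS _).2 ⟨2, ![0, 1], 0, ?_, ?_⟩
      · intro i
        fin_cases i
        · exact (DN K L (Ker L)).zero_mem
        · exact (DN K L (Ker L)).one_mem
      · rw [Fin.sum_univ_two]
        simp
    have htS' : (((trU K L t ht)⁻¹ : (AlgJ K L)ˣ) : AlgJ K L) ∈ S := by
      refine (hS _).2 ⟨1, fun _ => 1, 1, fun _ => (DN K L (Ker L)).one_mem, ?_⟩
      simp
    obtain ⟨i, hi⟩ := hgen g hg
    have h1 : (Ex.mono c (g * t ^ (-i)) : Ex K G).evJ L ∈ S := by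
      apply hDS
      refine ⟨.mono c (g * t ^ (-i)), ?_, rfl⟩
      intro x hx
      rw [show x = g * t ^ (-i) from hx]
      exact hi
    have h2 : ((fun s => s.1.tr K (t ^ i)) : AlgJ K L) ∈ S := by
      rcases Int.eq_nat_or_neg i with ⟨n, h | h⟩
      · have e1 : ((fun s => s.1.tr K (t ^ i)) : AlgJ K L) = (trU K L t ht : AlgJ K L) ^ n := by
          refine funext fun s => ?_
          rw [trU_pow, h, zpow_natCast]
        rw [e1]
        exact S.pow_mem htS n
      · have e1 : ((fun s => s.1.tr K (t ^ i)) : AlgJ K L) =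
            (((trU K L t ht)⁻¹ : (AlgJ K L)ˣ) : AlgJ K L) ^ n := by
          refine funext fun s => ?_
          rw [trU_inv_pow, h, zpow_neg, zpow_natCast, inv_pow]
        rw [e1]
        exact S.pow_mem htS' n
    have h3 : (Ex.mono c g : Ex K G).evJ L =
        (Ex.mono c (g * t ^ (-i)) : Ex K G).evJ L * ((fun s => s.1.tr K (t ^ i)) : AlgJ K L) := by
      refine funext fun s => ?_
      change c • s.1.tr K g = (c • s.1.tr K (g * t ^ (-i))) * s.1.tr K (t ^ i)
      rw [smul_mul_assoc, tr_mul (s.2 (L.mul_mem hg (L.zpow_mem ht _))) (s.2 (L.zpow_mem ht _)),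
        mul_assoc, ← zpow_add, neg_add_cancel, zpow_zero, mul_one]
    rw [h3]
    exact S.mul_mem h1 h2

end

end LCH8
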