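import Pool.Agent.Helper93.LCH.Stmts

/-!
# SPH: operators compatible with leading positions are invertible
-/

set_option autoImplicit false

namespace LCH8

open LCH

universe u v

variable {K : Type u} [Field K] {G : Type v} [Group G] {s : Sit G}

theorem ltn {x y : G} (h : s.lt x y) (h' : s.lt y x) : False :=
  s.lt_irrefl x (s.lt_trans h h')

/-- existence of leads -/
theorem exLead (v : s.V K) (hv : v ≠ 0) : ∃ x, Lead s v.1 x := by
  have hne : ({x | v.1 x ≠ 0} : Set G).Nonempty := by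
    by_contra hcon
    rw [Set.not_nonempty_iff_eq_empty] at hcon
    apply hv
    ext x
    by_contra hx
    have : x ∈ ({x | v.1 x ≠ 0} : Set G) := hx
    rw [hcon] at this
    exact this
  obtain ⟨x, hx, hx'⟩ := v.2.2 _ hne (fun x hx => hx)
  exact ⟨x, hx, fun y hy => hx' y hy⟩

theorem lead_mem {v : s.V K} {x : G} (h : Lead s v.1 x) : x ∈ s.M := v.2.1 x h.1

/-- functions with smaller support -/
theorem sub_memV {v w : G → K} (hv : v ∈ s.V K) (h : ∀ x, w x ≠ 0 → v x ≠ 0) : w ∈ s.V K :=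
  ⟨fun x hx => hv.1 x (h x hx), fun A hne hA => hv.2 A hne (fun x hx => h x (hA x hx))⟩

open Classical in
/-- restriction -/
noncomputable def rst (I : Set G) (v : s.V K) : s.V K :=
  ⟨fun x => if x ∈ I then v.1 x else 0, by
    apply sub_memV v.2
    intro x hx
    by_cases h : x ∈ I
    · rwa [if_pos h] at hx
    · rw [if_neg h] at hx
      exact absurd rfl hx⟩

theorem rst_pos {I : Set G} {v : s.V K} {x : G} (h : x ∈ I) : (rst I v).1 x = v.1 x := by
  unfold rst
  exact if_pos h

theorem rst_neg {I : Set G} {v : s.V K} {x : G} (h : x ∉ I) : (rst I v).1 x = 0 := by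
  unfold rst
  exact if_neg h

open Classical in
/-- delta functions -/
noncomputable def dlt (x : G) (hx : x ∈ s.M) (c : K) : s.V K :=
  ⟨fun y => if y = x then c else 0, by
    have key : ∀ y, (if y = x then c else 0) ≠ 0 → y = x := by
      intro y hy
      by_contra h
      rw [if_neg h] at hy
      exact hy rfl
    refine ⟨?_, ?_⟩
    · intro y hy
      rw [key y hy]
      exact hx
    · rintro A ⟨a, ha⟩ hA
      refine ⟨a, ha, fun y hy => Or.inl ?_⟩
      rw [key y (hA y hy), key a (hA a ha)]⟩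

theorem dlt_self {x : G} (hx : x ∈ s.M) (c : K) : (dlt (s := s) x hx c).1 x = c := by
  unfold dlt
  exact if_pos rfl

theorem dlt_ne {x y : G} (hx : x ∈ s.M) (c : K) (h : y ≠ x) :
    (dlt (s := s) x hx c).1 y = 0 := by
  unfold dlt
  exact if_neg h

theorem lead_dlt {x : G} (hx : x ∈ s.M) {c : K} (hc : c ≠ 0) :
    Lead s (dlt (s := s) x hx c).1 x := by
  refine ⟨by rwa [dlt_self], fun y hy => Or.inl ?_⟩
  by_contra h
  exact hy (dlt_ne hx c h)

/-- values before the lead vanish -/
theorem before_lead {v : G → K} {x y : G} (h : Lead s v x) (hy : s.lt y x) : v y = 0 := by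
  by_contra hcon
  rcases h.2 y hcon with e | e
  · rw [e] at hy
    exact s.lt_irrefl x hy
  · exact ltn hy e

section

variable {T : Module.End K (s.V K)} {φ : G → G}

theorem VCw_inj (hT : VCw s T φ) : Function.Injective T := by
  rw [injective_iff_map_eq_zero]
  intro v hv
  by_contra hne
  obtain ⟨x, hx⟩ := exLead v hne
  have := hT.2.2.2 v x hx
  rw [hv] at this
  exact this.1 rfl

theorem far_zero (hT : VCw s T φ) {v : s.V K} {y z : G} (hz : z ∈ s.M) (hzy : z = y ∨ s.lt z y)
    (hv : ∀ u, v.1 u ≠ 0 → s.lt y u) : (T v).1 (φ z) = 0 := by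
  by_cases h0 : v = 0
  · rw [h0, map_zero]
    rfl
  obtain ⟨u, hu⟩ := exLead v h0
  have h1 := hT.2.2.2 v u hu
  have h2 := hv u hu.1
  have h3 : s.lt z u := by
    rcases hzy with h | h
    · rw [h]; exact h2
    · exact s.lt_trans h h2
  exact before_lead h1 (hT.2.2.1 z hz u (lead_mem hu) h3)

/-- `v` solves `T v = w` up to `x` -/
def PSol (T : Module.End K (s.V K)) (φ : G → G) (w : s.V K) (x : G) (v : s.V K) : Prop :=
  (∀ z, v.1 z ≠ 0 → z = x ∨ s.lt z x) ∧
    ∀ z ∈ s.M, (z = x ∨ s.lt z x) → (T v).1 (φ z) = w.1 (φ z)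

theorem PSol_unique (hT : VCw s T φ) {w : s.V K} {x : G} {v1 v2 : s.V K}
    (h1 : PSol T φ w x v1) (h2 : PSol T φ w x v2) : v1 = v2 := by
  by_contra hne
  obtain ⟨z, hz⟩ := exLead (v1 - v2) (sub_ne_zero.2 hne)
  have hzx : z = x ∨ s.lt z x := by
    by_cases h : v1.1 z ≠ 0
    · exact h1.1 z h
    · push Not at h
      apply h2.1 z
      intro h'
      apply hz.1
      change v1.1 z - v2.1 z = 0
      rw [h, h', sub_zero]
  have h3 := hT.2.2.2 _ _ hz
  apply h3.1
  rw [map_sub]
  change (T v1).1 (φ z) - (T v2).1 (φ z) = 0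
  rw [h1.2 z (lead_mem hz) hzx, h2.2 z (lead_mem hz) hzx, sub_self]

theorem PSol_rst (hT : VCw s T φ) {w : s.V K} {x y : G} {v : s.V K} (hy : y ∈ s.M)
    (h : PSol T φ w x v) (hyx : y = x ∨ s.lt y x) :
    PSol T φ w y (rst {z | z = y ∨ s.lt z y} v) := by
  refine ⟨?_, ?_⟩
  · intro z hz
    by_contra hcon
    exact hz (rst_neg hcon)
  · intro z hz hzy
    have hzx : z = x ∨ s.lt z x := by
      rcases hyx with e | e
      · rw [← e]; exact hzy
      · rcases hzy with e' | e'
        · rw [e']; exact Or.inr e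
        · exact Or.inr (s.lt_trans e' e)
    rw [← h.2 z hz hzx]
    have h0 : (T (v - rst {z | z = y ∨ s.lt z y} v)).1 (φ z) = 0 := by
      apply far_zero hT hz hzy
      intro u hu
      have hu1 : u ∉ ({z | z = y ∨ s.lt z y} : Set G) := by
        intro hmem
        apply hu
        change v.1 u - (rst {z | z = y ∨ s.lt z y} v).1 u = 0
        rw [rst_pos hmem, sub_self]
      have hu2 : u ∈ s.M := by
        apply v.2.1 u
        intro h'
        apply hu
        change v.1 u - (rst {z | z = y ∨ s.lt z y} v).1 u = 0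
        rw [rst_neg hu1, h', sub_self]
      rcases s.lt_tot hy hu2 with e | e | e
      · exact absurd (Or.inl e.symm) hu1
      · exact e
      · exact absurd (Or.inr e) hu1
    rw [map_sub] at h0
    change (T v).1 (φ z) - (T (rst {z | z = y ∨ s.lt z y} v)).1 (φ z) = 0 at h0
    exact (sub_eq_zero.1 h0).symm

theorem VCw_surj (hT : VCw s T φ) : Function.Surjective T := by
  classical
  intro w
  -- the solutions up to `x`
  set J : Set G := {x | x ∈ s.M ∧ ∃ v, PSol T φ w x v} with hJ
  have hJlow : ∀ x ∈ J, ∀ y ∈ s.M, (y = x ∨ s.lt y x) → y ∈ J := by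
    rintro x ⟨_, v, hv⟩ y hy hyx
    exact ⟨hy, _, PSol_rst hT hy hv hyx⟩
  have hch : ∀ x : G, ∃ v : s.V K, x ∈ J → PSol T φ w x v := by
    intro x
    by_cases hx : x ∈ J
    · obtain ⟨v, hv⟩ := hx.2
      exact ⟨v, fun _ => hv⟩
    · exact ⟨0, fun h => absurd h hx⟩
  choose sol hsol using hch
  have hcomp : ∀ x ∈ J, ∀ z ∈ s.M, (z = x ∨ s.lt z x) → (sol z).1 z = (sol x).1 z := by
    intro x hx z hz hzx
    have h1 := hsol z (hJlow x hx z hz hzx)
    have h2 := PSol_rst hT hz (hsol x hx) hzx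
    rw [PSol_unique hT h1 h2]
    exact rst_pos (Or.inl rfl)
  set f : G → K := fun x => if x ∈ J then (sol x).1 x else 0 with hf
  have hfJ : ∀ x, f x ≠ 0 → x ∈ J := by
    intro x hx
    by_contra hcon
    apply hx
    change (if x ∈ J then (sol x).1 x else 0) = 0
    exact if_neg hcon
  have hfsol : ∀ x ∈ J, ∀ z ∈ s.M, (z = x ∨ s.lt z x) → f z = (sol x).1 z := by
    intro x hx z hz hzx
    change (if z ∈ J then (sol z).1 z else 0) = _
    rw [if_pos (hJlow x hx z hz hzx)]
    exact hcomp x hx z hz hzx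
  have hfV : f ∈ s.V K := by
    refine ⟨fun x hx => (hfJ x hx).1, ?_⟩
    rintro A ⟨a, ha⟩ hA
    have haJ := hfJ a (hA a ha)
    obtain ⟨m, hm, hm'⟩ := (sol a).2.2 {z ∈ A | z = a ∨ s.lt z a} ⟨a, ha, Or.inl rfl⟩ (by
      rintro z ⟨hz, hz'⟩
      rw [← hfsol a haJ z (hfJ z (hA z hz)).1 hz']
      exact hA z hz)
    refine ⟨m, hm.1, ?_⟩
    intro y hy
    rcases s.lt_tot (hfJ y (hA y hy)).1 haJ.1 with e | e | e
    · exact hm' y ⟨hy, Or.inl e⟩
    · exact hm' y ⟨hy, Or.inr e⟩
    · right
      rcases hm.2 with e' | e'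
      · rw [e']; exact e
      · exact s.lt_trans e' e
  set v : s.V K := ⟨f, hfV⟩ with hv
  have hvJ : ∀ x ∈ J, (T v).1 (φ x) = w.1 (φ x) := by
    intro x hx
    have h0 : (T (v - sol x)).1 (φ x) = 0 := by
      apply far_zero hT hx.1 (Or.inl rfl)
      intro u hu
      have huM : u ∈ s.M := (v - sol x).2.1 u hu
      rcases s.lt_tot hx.1 huM with e | e | e
      · exfalso
        apply hu
        change f u - (sol x).1 u = 0
        rw [hfsol x hx u huM (Or.inl e.symm), sub_self]
      · exact e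
      · exfalso
        apply hu
        change f u - (sol x).1 u = 0
        rw [hfsol x hx u huM (Or.inr e), sub_self]
    rw [map_sub] at h0
    change (T v).1 (φ x) - (T (sol x)).1 (φ x) = 0 at h0
    rw [sub_eq_zero.1 h0]
    exact (hsol x hx).2 x hx.1 (Or.inl rfl)
  refine ⟨v, ?_⟩
  by_contra hne
  obtain ⟨y, hy⟩ := exLead (w - T v) (sub_ne_zero.2 (Ne.symm hne))
  obtain ⟨x, hx, hxy⟩ := hT.2.1 y (lead_mem hy)
  have hxJ : x ∉ J := by
    intro h
    apply hy.1
    change w.1 y - (T v).1 y = 0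
    rw [← hxy, hvJ x h, sub_self]
  have hlead := hT.2.2.2 _ _ (lead_dlt (K := K) hx one_ne_zero)
  set D : s.V K := dlt x hx (1 : K) with hD
  set c : K := (w - T v).1 y / (T D).1 (φ x) with hc
  apply hxJ
  refine ⟨hx, v + c • D, ?_, ?_⟩
  · intro z hz
    by_cases h : z = x
    · exact Or.inl h
    · right
      have hfz : f z ≠ 0 := by
        intro h'
        apply hz
        change f z + c * D.1 z = 0
        rw [h', hD, dlt_ne hx 1 h, mul_zero, zero_add]
      have hzJ := hfJ z hfz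
      rcases s.lt_tot hzJ.1 hx with e | e | e
      · exact absurd e h
      · exact e
      · exact absurd (hJlow z hzJ x hx (Or.inr e)) hxJ
  · intro z hz hzx
    rw [map_add, map_smul]
    change (T v).1 (φ z) + c * (T D).1 (φ z) = w.1 (φ z)
    rcases hzx with e | e
    · rw [e, hc, div_mul_cancel₀ _ hlead.1]
      change (T v).1 (φ x) + (w.1 y - (T v).1 y) = w.1 (φ x)
      rw [hxy]
      ring
    · have h1 : s.lt (φ z) (φ x) := hT.2.2.1 z hz x hx e
      rw [before_lead hlead h1, mul_zero, add_zero]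
      have h2 : (w - T v).1 (φ z) = 0 := by
        apply before_lead hy
        rw [← hxy]
        exact h1
      change w.1 (φ z) - (T v).1 (φ z) = 0 at h2
      exact (sub_eq_zero.1 h2).symm

end

theorem st_SPH : ST_SPH.{u, v} := by
  intro K _ G _ s T hT
  obtain ⟨φ, hφ⟩ := hT
  rw [Module.End.isUnit_iff]
  exact ⟨VCw_inj hφ, VCw_surj hφ⟩

end LCH8
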