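import Pool.Agent.Helper93.LCH.Stmts

/-!
# XINV: the expansion of an inverse of `1 + η` in a filtered ring
-/

set_option autoImplicit false

namespace LCH8

open LCH

universe w

variable {A : Type w} [Ring A]

/-! ## Words of fixed length -/

/-- the words of length `n` with letters in `T` -/
def wd (T : Finset ℝ) : ℕ → Finset (List ℝ)
  | 0 => {[]}
  | n + 1 => (T ×ˢ wd T n).map ⟨fun p => p.1 :: p.2, by
      rintro ⟨a, l⟩ ⟨b, l'⟩ h
      have h1 := List.cons.inj h
      exact Prod.ext h1.1 h1.2⟩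

theorem mem_wd (T : Finset ℝ) (n : ℕ) (l : List ℝ) :
    l ∈ wd T n ↔ l.length = n ∧ ∀ r ∈ l, r ∈ T := by
  induction n generalizing l with
  | zero =>
    rw [wd, Finset.mem_singleton]
    constructor
    · rintro rfl
      exact ⟨rfl, fun r hr => absurd hr List.not_mem_nil⟩
    · rintro ⟨h, _⟩
      exact List.length_eq_zero_iff.1 h
  | succ n ih =>
    rw [wd, Finset.mem_map]
    constructor
    · rintro ⟨⟨a, l'⟩, hm, rfl⟩
      rw [Finset.mem_product] at hm
      obtain ⟨h1, h2⟩ := (ih l').1 hm.2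
      refine ⟨?_, ?_⟩
      · change (a :: l').length = n + 1
        rw [List.length_cons, h1]
      · intro r hr
        rcases List.mem_cons.1 hr with h | h
        · rw [h]; exact hm.1
        · exact h2 r h
    · rintro ⟨h1, h2⟩
      cases l with
      | nil => exact absurd h1 (by simp)
      | cons a l' =>
        refine ⟨(a, l'), ?_, rfl⟩
        rw [Finset.mem_product]
        refine ⟨h2 a List.mem_cons_self, (ih l').2 ⟨?_, ?_⟩⟩
        · simpa using h1
        · intro r hr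
          exact h2 r (List.mem_cons_of_mem _ hr)

theorem sum_wd (T : Finset ℝ) (f : ℝ → A) (n : ℕ) :
    ∑ l ∈ wd T n, (l.map f).prod = (∑ r ∈ T, f r) ^ n := by
  induction n with
  | zero => simp [wd]
  | succ n ih =>
    rw [pow_succ', ← ih, wd, Finset.sum_map, Finset.sum_mul_sum, Finset.sum_product]
    refine Finset.sum_congr rfl fun r _ => Finset.sum_congr rfl fun l _ => ?_
    change ((r :: l).map f).prod = f r * (l.map f).prod
    rw [List.map_cons, List.prod_cons]

/-! ## Filtered rings -/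

theorem FRzero_mul (Φ : FR A) {B : ℝ} {x y : A} (hx : x ∈ Φ.F 0) (hy : y ∈ Φ.F B) :
    x * y ∈ Φ.F B := by
  have := Φ.mul 0 B x y hx hy
  rwa [zero_add] at this

theorem FRmul_zero (Φ : FR A) {B : ℝ} {x y : A} (hx : x ∈ Φ.F B) (hy : y ∈ Φ.F 0) :
    x * y ∈ Φ.F B := by
  have := Φ.mul B 0 x y hx hy
  rwa [add_zero] at this

theorem FRpow (Φ : FR A) {δ : ℝ} {x : A} (hx : x ∈ Φ.F δ) (n : ℕ) :
    x ^ n ∈ Φ.F (n * δ) := by
  induction n with
  | zero =>
    rw [pow_zero, Nat.cast_zero, zero_mul]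
    exact Φ.one
  | succ n ih =>
    have := Φ.mul _ _ _ _ ih hx
    rw [pow_succ]
    have e : ((n + 1 : ℕ) : ℝ) * δ = n * δ + δ := by push_cast; ring
    rw [e]
    exact this

/-- products along a word -/
theorem prod_len (Φ : FR A) {δ : ℝ} {S : Set ℝ} {f : ℝ → A} (hf : ∀ r ∈ S, f r ∈ Φ.F δ)
    (l : List ℝ) (hl : ∀ r ∈ l, r ∈ S) : (l.map f).prod ∈ Φ.F (l.length * δ) := by
  induction l with
  | nil =>
    simp only [List.map_nil, List.prod_nil, List.length_nil, Nat.cast_zero, zero_mul]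
    exact Φ.one
  | cons a l ih =>
    rw [List.map_cons, List.prod_cons, List.length_cons]
    have h1 := ih (fun r hr => hl r (List.mem_cons_of_mem _ hr))
    have h2 := hf a (hl a List.mem_cons_self)
    have := Φ.mul _ _ _ _ h2 h1
    have e : ((l.length + 1 : ℕ) : ℝ) * δ = δ + l.length * δ := by push_cast; ring
    rw [e]
    exact this

theorem prod_bad (Φ : FR A) {B R : ℝ} {S : Set ℝ} {f : ℝ → A} (hf : ∀ r ∈ S, f r ∈ Φ.F 0)
    (hR : ∀ r ∈ S, R ≤ r → f r ∈ Φ.F B)
    (l : List ℝ) (hl : ∀ r ∈ l, r ∈ S) (hb : ∃ r ∈ l, R ≤ r) : (l.map f).prod ∈ Φ.F B := by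
  have key : ∀ l : List ℝ, (∀ r ∈ l, r ∈ S) → (l.map f).prod ∈ Φ.F 0 := by
    intro l hl
    have := prod_len Φ hf l hl
    rwa [mul_zero] at this
  induction l with
  | nil =>
    obtain ⟨r, hr, _⟩ := hb
    exact absurd hr List.not_mem_nil
  | cons a l ih =>
    rw [List.map_cons, List.prod_cons]
    have hl' : ∀ r ∈ l, r ∈ S := fun r hr => hl r (List.mem_cons_of_mem _ hr)
    have ha := hl a List.mem_cons_self
    obtain ⟨r, hr, hr'⟩ := hb
    rcases List.mem_cons.1 hr with h | h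
    · rw [h] at hr'
      exact FRmul_zero Φ (hR a ha hr') (key l hl')
    · exact FRzero_mul Φ (hf a ha) (ih hl' ⟨r, h, hr'⟩)

/-- the growth lemma -/
theorem growth (Φ : FR A) {x : A} {S : Set ℝ} {y : ℝ → A} (h : Expn Φ x S y) (B : ℝ) :
    ∃ R : ℝ, ∀ r ∈ S, R ≤ r → y r ∈ Φ.F B := by
  classical
  obtain ⟨h1, _, h3⟩ := h
  obtain ⟨B', hB'⟩ := h3 B
  refine ⟨B', fun r hr hrB => ?_⟩
  -- a number above `r` with nothing in between
  obtain ⟨r', hr', hr''⟩ : ∃ r' : ℝ, r < r' ∧ ∀ p ∈ S, p < r' → p ≤ r := by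
    have hfin : ({p | p ∈ S ∧ r < p ∧ p < r + 1} : Set ℝ).Finite :=
      (h1 (r + 1)).subset (fun p hp => ⟨hp.1, hp.2.2⟩)
    rcases Set.eq_empty_or_nonempty {p | p ∈ S ∧ r < p ∧ p < r + 1} with h0 | h0
    · refine ⟨r + 1, by linarith, fun p hp hp1 => ?_⟩
      by_contra hcon
      push Not at hcon
      have : p ∈ ({p | p ∈ S ∧ r < p ∧ p < r + 1} : Set ℝ) := ⟨hp, hcon, hp1⟩
      rw [h0] at this
      exact this
    · obtain ⟨m, hm, hm'⟩ := Set.exists_min_image _ (fun p : ℝ => p) hfin h0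
      refine ⟨m, hm.2.1, fun p hp hp1 => ?_⟩
      by_contra hcon
      push Not at hcon
      have := hm' p ⟨hp, hcon, lt_trans hp1 hm.2.2⟩
      linarith
  have hT1 : ∀ p, p ∈ (h1 r).toFinset ↔ p ∈ S ∧ p < r := by
    intro p
    rw [Set.Finite.mem_toFinset]
    rfl
  have hrn : r ∉ (h1 r).toFinset := by
    rw [hT1]
    intro h
    exact lt_irrefl _ h.2
  have hT2 : ∀ p, p ∈ insert r (h1 r).toFinset ↔ p ∈ S ∧ p < r' := by
    intro p
    rw [Finset.mem_insert, hT1]
    constructor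
    · rintro (rfl | h)
      · exact ⟨hr, hr'⟩
      · exact ⟨h.1, lt_trans h.2 hr'⟩
    · rintro ⟨h, h'⟩
      rcases eq_or_lt_of_le (hr'' p h h') with h4 | h4
      · exact Or.inl h4
      · exact Or.inr ⟨h, h4⟩
  have e1 := hB' r hrB _ hT1
  have e2 := hB' r' (le_trans hrB hr'.le) _ hT2
  rw [Finset.sum_insert hrn] at e2
  have e3 := (Φ.F B).sub_mem e1 e2
  have e4 : x - ∑ p ∈ (h1 r).toFinset, y p - (x - (y r + ∑ p ∈ (h1 r).toFinset, y p)) = y r := by
    abel
  rwa [e4] at e3

/-- words of bounded sum -/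
theorem words_fin {S : Set ℝ} (h1 : ∀ B : ℝ, (S ∩ Set.Iio B).Finite) (hpos : ∀ r ∈ S, 0 < r)
    (B : ℝ) : ({l : List ℝ | (∀ r ∈ l, r ∈ S) ∧ l.sum < B} : Set (List ℝ)).Finite := by
  obtain ⟨m, hm0, hm⟩ : ∃ m : ℝ, 0 < m ∧ ∀ r ∈ S, m ≤ r := by
    rcases Set.eq_empty_or_nonempty (S ∩ Set.Iio 1) with h0 | h0
    · refine ⟨1, one_pos, fun r hr => ?_⟩
      by_contra hcon
      push Not at hcon
      have : r ∈ S ∩ Set.Iio 1 := ⟨hr, hcon⟩
      rw [h0] at this
      exact this
    · obtain ⟨m, hm, hm'⟩ := Set.exists_min_image _ (fun p : ℝ => p) (h1 1) h0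
      refine ⟨m, hpos m hm.1, fun r hr => ?_⟩
      by_contra hcon
      push Not at hcon
      have := hm' r ⟨hr, lt_trans hcon hm.2⟩
      linarith
  obtain ⟨N, hN⟩ := exists_nat_gt (B / m)
  have hNm : B < N * m := by
    rw [div_lt_iff₀ hm0] at hN
    exact hN
  have : Finite ↥(S ∩ Set.Iio B) := (h1 B).to_subtype
  have hf := (List.finite_length_lt ↥(S ∩ Set.Iio B) N).image (List.map Subtype.val)
  refine hf.subset ?_
  rintro l ⟨hl, hs⟩
  have hlen : ∀ l : List ℝ, (∀ r ∈ l, r ∈ S) → (l.length : ℝ) * m ≤ l.sum := by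
    intro l
    induction l with
    | nil => intro _; simp
    | cons a l ih =>
      intro hl
      have h1 := ih (fun r hr => hl r (List.mem_cons_of_mem _ hr))
      have h2 := hm a (hl a List.mem_cons_self)
      rw [List.length_cons, List.sum_cons]
      push_cast
      nlinarith
  have hle : ∀ l : List ℝ, (∀ r ∈ l, r ∈ S) → ∀ r ∈ l, r ≤ l.sum := by
    intro l
    induction l with
    | nil => intro _ r hr; exact absurd hr List.not_mem_nil
    | cons a l ih =>
      intro hl r hr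
      have hl' : ∀ r ∈ l, r ∈ S := fun r hr => hl r (List.mem_cons_of_mem _ hr)
      have h0 : 0 ≤ l.sum := by
        have := hlen l hl'
        have h4 : 0 ≤ (l.length : ℝ) * m := by positivity
        linarith
      have h5 := hpos a (hl a List.mem_cons_self)
      rw [List.sum_cons]
      rcases List.mem_cons.1 hr with h | h
      · rw [h]; linarith
      · have := ih hl' r h
        linarith
  have hmem : ∀ r ∈ l, r ∈ S ∩ Set.Iio B := fun r hr =>
    ⟨hl r hr, lt_of_le_of_lt (hle l hl r hr) hs⟩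
  refine ⟨l.attach.map (fun r => ⟨r.1, hmem r.1 r.2⟩), ?_, ?_⟩
  · change (l.attach.map _).length < N
    rw [List.length_map, List.length_attach]
    have h6 := hlen l hl
    by_contra hcon
    push Not at hcon
    have h7 : (N : ℝ) ≤ (l.length : ℝ) := by exact_mod_cast hcon
    have h8 : (N : ℝ) * m ≤ l.length * m := mul_le_mul_of_nonneg_right h7 hm0.le
    linarith
  · rw [List.map_map]
    change l.attach.map (fun r => r.1) = l
    exact List.attach_map_subtype_val l

theorem st_XINV : ST_XINV.{w} := by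
  classical
  intro A _ Φ η z S y δ hδ hE hpos hyδ hz hz0
  have h1 := hE.1
  have hsum0 : ∀ (f : ℝ → A) (B : ℝ) (T : Finset ℝ), (∀ r ∈ T, f r ∈ Φ.F B) →
      ∑ r ∈ T, f r ∈ Φ.F B := fun f B T hf => (Φ.F B).sum_mem hf
  have hnδ : ∀ r ∈ S, - y r ∈ Φ.F δ := fun r hr => (Φ.F δ).neg_mem (hyδ r hr)
  have hn0 : ∀ r ∈ S, - y r ∈ Φ.F 0 := fun r hr => Φ.anti 0 δ hδ.le (hnδ r hr)
  have hword0 : ∀ l : List ℝ, (∀ r ∈ l, r ∈ S) → (l.map (fun r => - y r)).prod ∈ Φ.F 0 := by
    intro l hl
    have := prod_len Φ hn0 l hl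
    rwa [mul_zero] at this
  have hfin : ∀ s : ℝ, ({l : List ℝ | (∀ r ∈ l, r ∈ S) ∧ l.sum = s} : Set (List ℝ)).Finite := by
    intro s
    refine (words_fin h1 hpos (s + 1)).subset ?_
    rintro l ⟨hl, hs⟩
    exact ⟨hl, by rw [hs]; linarith⟩
  refine ⟨hfin, ?_⟩
  intro w hw
  refine ⟨?_, ?_, ?_⟩
  · intro B
    refine ((words_fin h1 hpos B).image List.sum).subset ?_
    rintro s ⟨⟨l, hl, hs⟩, hB⟩
    exact ⟨l, ⟨hl, by rw [hs]; exact hB⟩, hs⟩
  · intro s _
    refine ⟨0, ?_⟩
    rw [hw s (hfin s).toFinset (by intro l; rw [Set.Finite.mem_toFinset]; rfl)]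
    refine (Φ.F 0).sum_mem ?_
    intro l hl
    rw [Set.Finite.mem_toFinset] at hl
    exact hword0 l hl.1
  · intro B
    -- `η ∈ F δ`
    have hη : η ∈ Φ.F δ := by
      obtain ⟨B', hB'⟩ := hE.2.2 δ
      have e1 := hB' B' le_rfl (h1 B').toFinset (by intro p; rw [Set.Finite.mem_toFinset]; rfl)
      have e2 := hsum0 y δ (h1 B').toFinset (by
        intro r hr
        rw [Set.Finite.mem_toFinset] at hr
        exact hyδ r hr.1)
      have := (Φ.F δ).add_mem e1 e2
      rwa [sub_add_cancel] at this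
    obtain ⟨N, hN⟩ := exists_nat_gt (B / δ)
    have hNδ : B ≤ N * δ := by
      rw [div_lt_iff₀ hδ] at hN
      exact hN.le
    obtain ⟨R1, hR1⟩ := hE.2.2 B
    obtain ⟨R2, hR2⟩ := growth Φ hE B
    obtain ⟨R, hRR1, hRR2, hR0⟩ : ∃ R : ℝ, R1 ≤ R ∧ R2 ≤ R ∧ 0 ≤ R :=
      ⟨max (max R1 R2) 0, le_trans (le_max_left _ _) (le_max_left _ _),
        le_trans (le_max_right _ _) (le_max_left _ _), le_max_right _ _⟩
    set T : Finset ℝ := (h1 R).toFinset with hT
    have hTm : ∀ p, p ∈ T ↔ p ∈ S ∧ p < R := by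
      intro p
      rw [hT, Set.Finite.mem_toFinset]
      rfl
    have hρ := hR1 R hRR1 T hTm
    have hbad : ∀ r ∈ S, R ≤ r → - y r ∈ Φ.F B := fun r hr hrR =>
      (Φ.F B).neg_mem (hR2 r hr (le_trans hRR2 hrR))
    set a : A := ∑ r ∈ T, - y r with ha
    have ha0 : a ∈ Φ.F 0 := hsum0 _ 0 T (fun r hr => hn0 r ((hTm r).1 hr).1)
    have hη0 : - η ∈ Φ.F 0 := (Φ.F 0).neg_mem (Φ.anti 0 δ hδ.le hη)
    have hdiff : - η - a ∈ Φ.F B := by
      have : - η - a = - (η - ∑ r ∈ T, y r) := by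
        rw [ha, Finset.sum_neg_distrib]
        abel
      rw [this]
      exact (Φ.F B).neg_mem hρ
    have hpow0 : ∀ (x : A), x ∈ Φ.F 0 → ∀ n : ℕ, x ^ n ∈ Φ.F 0 := by
      intro x hx n
      have := FRpow Φ hx n
      rwa [mul_zero] at this
    have hpd : ∀ n : ℕ, (- η) ^ n - a ^ n ∈ Φ.F B := by
      intro n
      induction n with
      | zero => rw [pow_zero, pow_zero, sub_self]; exact (Φ.F B).zero_mem
      | succ n ih =>
        have e : (- η) ^ (n + 1) - a ^ (n + 1) =
            ((- η) ^ n - a ^ n) * (- η) + a ^ n * (- η - a) := by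
          rw [pow_succ, pow_succ, sub_mul, mul_sub]
          abel
        rw [e]
        exact (Φ.F B).add_mem (FRmul_zero Φ ih hη0) (FRzero_mul Φ (hpow0 a ha0 n) hdiff)
    -- the geometric sum
    have hgeo : z - ∑ n ∈ Finset.range N, (- η) ^ n ∈ Φ.F B := by
      have e1 := geom_sum_mul_neg (- η) N
      have e2 : ∑ n ∈ Finset.range N, (- η) ^ n = z - (- η) ^ N * z := by
        have : (∑ n ∈ Finset.range N, (- η) ^ n) * (1 - - η) * z = (1 - (- η) ^ N) * z := by
          rw [e1]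
        rw [sub_neg_eq_add, mul_assoc, hz, mul_one, sub_mul, one_mul] at this
        exact this
      rw [e2, sub_sub_cancel]
      have e3 := FRpow Φ ((Φ.F δ).neg_mem hη) N
      exact FRmul_zero Φ (Φ.anti _ _ hNδ e3) hz0
    refine ⟨N * R + 1, ?_⟩
    intro B'' hB'' T' hT'
    -- all words of sum `< B''`
    set V : Finset (List ℝ) := (words_fin h1 hpos B'').toFinset with hV
    have hVm : ∀ l, l ∈ V ↔ (∀ r ∈ l, r ∈ S) ∧ l.sum < B'' := by
      intro l
      rw [hV, Set.Finite.mem_toFinset]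
      rfl
    have hsumw : ∑ s ∈ T', w s = ∑ l ∈ V, (l.map (fun r => - y r)).prod := by
      have hmaps : ∀ l ∈ V, l.sum ∈ T' := by
        intro l hl
        have := (hVm l).1 hl
        exact (hT' _).2 ⟨⟨l, this.1, rfl⟩, this.2⟩
      rw [← Finset.sum_fiberwise_of_maps_to hmaps]
      refine Finset.sum_congr rfl ?_
      intro s hs
      apply hw
      intro l
      rw [Finset.mem_filter, hVm]
      constructor
      · rintro ⟨⟨h, _⟩, h'⟩
        exact ⟨h, h'⟩
      · rintro ⟨h, h'⟩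
        refine ⟨⟨h, ?_⟩, h'⟩
        rw [h']
        exact ((hT' s).1 hs).2
    rw [hsumw]
    -- the good words
    set P : List ℝ → Prop := fun l => l.length < N ∧ ∀ r ∈ l, r < R with hP
    have hgood : ∑ l ∈ V with P l, (l.map (fun r => - y r)).prod =
        ∑ n ∈ Finset.range N, a ^ n := by
      have hmaps : ∀ l ∈ V.filter P, l.length ∈ Finset.range N := by
        intro l hl
        rw [Finset.mem_filter] at hl
        exact Finset.mem_range.2 hl.2.1
      rw [← Finset.sum_fiberwise_of_maps_to hmaps]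
      refine Finset.sum_congr rfl ?_
      intro n hn
      rw [ha, ← sum_wd]
      refine Finset.sum_congr ?_ (fun _ _ => rfl)
      ext l
      rw [Finset.mem_filter, Finset.mem_filter, mem_wd, hVm]
      constructor
      · rintro ⟨⟨⟨h, _⟩, h'⟩, h''⟩
        exact ⟨h'', fun r hr => (hTm r).2 ⟨h r hr, h'.2 r hr⟩⟩
      · rintro ⟨h, h'⟩
        have hlt : ∀ r ∈ l, r < R := fun r hr => ((hTm r).1 (h' r hr)).2
        refine ⟨⟨⟨fun r hr => ((hTm r).1 (h' r hr)).1, ?_⟩, ?_, hlt⟩, h⟩
        · have hs : ∀ l : List ℝ, (∀ r ∈ l, r < R) → l.sum ≤ l.length * R := by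
            intro l
            induction l with
            | nil => intro _; simp
            | cons b l ih =>
              intro hl
              have h1 := ih (fun r hr => hl r (List.mem_cons_of_mem _ hr))
              have h2 := hl b List.mem_cons_self
              rw [List.length_cons, List.sum_cons]
              push_cast
              linarith
          have h9 := hs l hlt
          have h10 : (l.length : ℝ) * R ≤ N * R := by
            apply mul_le_mul_of_nonneg_right _ hR0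
            rw [h]
            exact_mod_cast (Finset.mem_range.1 hn).le
          linarith
        · rw [h]
          exact Finset.mem_range.1 hn
    rw [← Finset.sum_filter_add_sum_filter_not V P, hgood]
    have hrest : ∑ l ∈ V with ¬ P l, (l.map (fun r => - y r)).prod ∈ Φ.F B := by
      refine (Φ.F B).sum_mem ?_
      intro l hl
      rw [Finset.mem_filter, hVm] at hl
      obtain ⟨⟨hlS, _⟩, hnP⟩ := hl
      by_cases hlen : l.length < N
      · have hex : ∃ r ∈ l, R ≤ r := by
          by_contra hcon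
          push Not at hcon
          exact hnP ⟨hlen, hcon⟩
        exact prod_bad Φ hn0 hbad l hlS hex
      · push Not at hlen
        have e1 := prod_len Φ hnδ l hlS
        refine Φ.anti _ _ ?_ e1
        have h7 : (N : ℝ) ≤ (l.length : ℝ) := by exact_mod_cast hlen
        have h8 : (N : ℝ) * δ ≤ l.length * δ := mul_le_mul_of_nonneg_right h7 hδ.le
        linarith
    have e : z - (∑ n ∈ Finset.range N, a ^ n + ∑ l ∈ V with ¬ P l, (l.map (fun r => - y r)).prod)
        = (z - ∑ n ∈ Finset.range N, (- η) ^ n) + ∑ n ∈ Finset.range N, ((- η) ^ n - a ^ n)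
          - ∑ l ∈ V with ¬ P l, (l.map (fun r => - y r)).prod := by
      rw [Finset.sum_sub_distrib]
      abel
    rw [e]
    exact (Φ.F B).sub_mem ((Φ.F B).add_mem hgeo ((Φ.F B).sum_mem (fun n _ => hpd n))) hrest

end LCH8
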